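import Pool.Agent.Helper25.LS.Defs

/-!
# Traces of large compressions of an operator without nonzero eigenvalues
-/

set_option autoImplicit false

open Filter Topology Module Pool.Agent.Helper25.LS

noncomputable section

namespace Pool.Agent.Helper35.LS

theorem log_one_add_le {x : ℝ} (hx : 0 ≤ x) : Real.log (1 + x) ≤ 2 * Real.sqrt x := by
  have h0 : 0 ≤ Real.sqrt x := Real.sqrt_nonneg x
  have h1 : 1 + x ≤ (1 + Real.sqrt x) ^ 2 := by
    have := Real.sq_sqrt hx
    nlinarith
  calc Real.log (1 + x) ≤ Real.log ((1 + Real.sqrt x) ^ 2) := Real.log_le_log (by linarith) h1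
    _ = 2 * Real.log (1 + Real.sqrt x) := by rw [Real.log_pow]; norm_num
    _ ≤ 2 * Real.sqrt x := by
        have := Real.log_le_sub_one_of_pos (x := 1 + Real.sqrt x) (by linarith)
        linarith

/-- A large radius. -/
theorem exists_radius (c b δ : ℝ) (hc : 0 ≤ c) (hb : 0 ≤ b) (hδ : 0 < δ) :
    ∃ R : ℝ, 0 < R ∧ c * Real.log (1 + R * b) + 1 ≤ δ * R := by
  set s : ℝ := (2 * c * Real.sqrt b + 1) / δ + 1 with hs
  have hsb : 0 ≤ Real.sqrt b := Real.sqrt_nonneg b
  have h1 : 1 ≤ s := by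
    have : 0 ≤ (2 * c * Real.sqrt b + 1) / δ := by positivity
    linarith
  have h0 : 0 < s := by linarith
  refine ⟨s ^ 2, by positivity, ?_⟩
  have h2 : Real.log (1 + s ^ 2 * b) ≤ 2 * (s * Real.sqrt b) := by
    have := log_one_add_le (x := s ^ 2 * b) (by positivity)
    rwa [Real.sqrt_mul (by positivity), Real.sqrt_sq h0.le] at this
  have h3 : δ * s = 2 * c * Real.sqrt b + 1 + δ := by
    rw [hs]; field_simp
  calc c * Real.log (1 + s ^ 2 * b) + 1 ≤ c * (2 * (s * Real.sqrt b)) + 1 := by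
        have := mul_le_mul_of_nonneg_left h2 hc
        linarith
    _ ≤ (2 * c * Real.sqrt b + 1 + δ) * s := by nlinarith
    _ = δ * s ^ 2 := by rw [← h3]; ring

/-- The trace of the compression to the span of an orthonormal family. -/
theorem trace_comp (H : Type) [NormedAddCommGroup H] [InnerProductSpace ℂ H] (T : H →L[ℂ] H)
    (m : ℕ) (e : Fin m → H) (he : Orthonormal ℂ e)
    [FiniteDimensional ℂ (Submodule.span ℂ (Set.range e))] :
    LinearMap.trace ℂ _ (comp H T (Submodule.span ℂ (Set.range e))) =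
      ∑ k, inner ℂ (e k) (T (e k)) := by
  have h1 : Orthonormal ℂ (Basis.span he.linearIndependent) := by
    convert orthonormal_span he using 2 with i
    exact Basis.span_apply _ _
  rw [LinearMap.trace_eq_sum_inner _ (OrthonormalBasis.mk h1 (Basis.span he.linearIndependent).span_eq.ge)]
  apply Finset.sum_congr rfl
  intro k _
  have h2 : ∀ k, ((OrthonormalBasis.mk h1 (Basis.span he.linearIndependent).span_eq.ge) k : H) =
      e k := by
    intro k
    rw [OrthonormalBasis.coe_mk, Basis.span_apply]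
  have h3 : comp H T (Submodule.span ℂ (Set.range e))
      ((OrthonormalBasis.mk h1 (Basis.span he.linearIndependent).span_eq.ge) k) =
      (Submodule.span ℂ (Set.range e)).orthogonalProjectionOnto (T (e k)) := by
    rw [← h2 k]
    rfl
  rw [h3, Submodule.inner_orthogonalProjectionOnto_eq_of_mem_left, h2 k]

theorem hl (h1 : S_TC) (h2 : S_SP) (h3 : S_DB) (h4 : S_BC) : S_HL := by
  intro H _ _ _ T hT hN ε hε
  have hc : IsCompactOperator T := h1 H T hT
  obtain ⟨E1, hE1, ht⟩ := hT (ε / 8) (by positivity)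
  set n : ℕ := finrank ℂ E1 with hn
  obtain ⟨R, hR0, hR⟩ := exists_radius n ‖T‖ (ε / 8) (Nat.cast_nonneg _) (norm_nonneg _)
    (by positivity)
  obtain ⟨E2, hE2, hs⟩ := h2 H T hc hN (1 / R) (by positivity)
  refine ⟨E1 ⊔ E2, inferInstance, ?_⟩
  intro m e he hle
  set E : Submodule ℂ H := Submodule.span ℂ (Set.range e) with hE
  have hfd : FiniteDimensional ℂ E := FiniteDimensional.span_of_finite ℂ (Set.finite_range e)
  have hE1E : E1 ≤ E := le_sup_left.trans hle
  have hE2E : E2 ≤ E := le_sup_right.trans hle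
  set B : ℝ := n * Real.log (1 + R * ‖T‖) + R * (ε / 8) + 1 with hB
  have hlog : 0 ≤ Real.log (1 + R * ‖T‖) := Real.log_nonneg (by
    have : 0 ≤ R * ‖T‖ := by positivity
    linarith)
  have hB0 : 0 < B := by positivity
  have hkey := h4 E (comp H T E) R B hR0 hB0 (by
    intro μ v hμ hv
    refine hs E hE2E μ v ?_ hv
    rw [div_le_iff₀ hR0]
    linarith [mul_comm R ‖μ‖]) (by
    intro z hz
    refine (h3 H T E1 E (ε / 8) (by positivity) hE1E ht z).trans ?_
    have h5 : (1 + ‖z‖ * ‖T‖) ^ (finrank ℂ E1) ≤ Real.exp (n * Real.log (1 + R * ‖T‖)) := by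
      rw [Real.exp_nat_mul, Real.exp_log (by positivity)]
      have : ‖z‖ * ‖T‖ ≤ R * ‖T‖ := mul_le_mul_of_nonneg_right hz (norm_nonneg _)
      exact pow_le_pow_left₀ (by positivity) (by linarith) _
    have h6 : Real.exp (‖z‖ * (ε / 8)) ≤ Real.exp (R * (ε / 8)) :=
      Real.exp_le_exp.2 (mul_le_mul_of_nonneg_right hz (by positivity))
    calc (1 + ‖z‖ * ‖T‖) ^ (finrank ℂ E1) * Real.exp (‖z‖ * (ε / 8))
        ≤ Real.exp (n * Real.log (1 + R * ‖T‖)) * Real.exp (R * (ε / 8)) :=
          mul_le_mul h5 h6 (Real.exp_nonneg _) (Real.exp_nonneg _)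
      _ = Real.exp (n * Real.log (1 + R * ‖T‖) + R * (ε / 8)) := by rw [Real.exp_add]
      _ ≤ Real.exp B := Real.exp_le_exp.2 (by rw [hB]; linarith))
  rw [trace_comp H T m e he] at hkey
  refine hkey.trans ?_
  rw [div_le_iff₀ hR0, hB]
  nlinarith

end Pool.Agent.Helper35.LS
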