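import Pool.Agent.Helper25.LS.Defs

/-!
# The corrected operator has no nonzero eigenvalue
-/

set_option autoImplicit false

open Filter Topology Module Pool.Agent.Helper25.LS

noncomputable section

namespace Pool.Agent.Helper35.LS

/-- A rank one operator is compact. -/
theorem compact_smulRight {X : Type} [NormedAddCommGroup X] [NormedSpace ℂ X]
    (f : X →L[ℂ] ℂ) (x : X) : IsCompactOperator (f.smulRight x) := by
  have h1 : IsCompactOperator (ContinuousLinearMap.toSpanSingleton ℂ x) :=
    isCompactOperator_of_locallyCompactSpace_rng _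
  have h2 := h1.comp_clm f
  have h3 : (f.smulRight x : X → X) = ContinuousLinearMap.toSpanSingleton ℂ x ∘ f := by
    ext v
    simp
  rw [h3]
  exact h2

/-- Finite sums of compact operators. -/
theorem compact_sum {X : Type} [NormedAddCommGroup X] [NormedSpace ℂ X]
    (A : ℕ → X →L[ℂ] X) (hA : ∀ k, IsCompactOperator (A k)) (s : Finset ℕ) :
    IsCompactOperator ((∑ k ∈ s, A k : X →L[ℂ] X)) := by
  classical
  induction s using Finset.induction_on with
  | empty =>
    rw [Finset.sum_empty]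
    exact isCompactOperator_zero
  | insert a s ha ih =>
    rw [Finset.sum_insert ha]
    exact (hA a).add ih

/-- The union of the flag. -/
theorem exists_mem_of_mem_span {X : Type} [AddCommGroup X] [Module ℂ X] (w : ℕ → X) {f : X}
    (hf : f ∈ Submodule.span ℂ (Set.range w)) :
    ∃ k, f ∈ Submodule.span ℂ (w '' {l | l < k}) := by
  have hmono : ∀ {k l : ℕ}, k ≤ l → Submodule.span ℂ (w '' {j | j < k}) ≤
      Submodule.span ℂ (w '' {j | j < l}) := fun h =>
    Submodule.span_mono (Set.image_mono fun j (hj : j < _) => lt_of_lt_of_le hj h)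
  induction hf using Submodule.span_induction with
  | mem y hy =>
    obtain ⟨l, rfl⟩ := hy
    exact ⟨l + 1, Submodule.subset_span ⟨l, Nat.lt_succ_self l, rfl⟩⟩
  | zero => exact ⟨0, Submodule.zero_mem _⟩
  | add y z _ _ hy hz =>
    obtain ⟨k, hk⟩ := hy
    obtain ⟨l, hl⟩ := hz
    exact ⟨max k l, Submodule.add_mem _ (hmono (le_max_left _ _) hk)
      (hmono (le_max_right _ _) hl)⟩
  | smul c y _ hy =>
    obtain ⟨k, hk⟩ := hy
    exact ⟨k, Submodule.smul_mem _ c hk⟩

theorem ne (h1 : S_RZ) : S_NE := by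
  intro X _ _ _ T F e es T' hT hlam he hes hem hesw hwd _ hT' ν x hν hx
  -- the flag
  set W : ℕ → Submodule ℂ X := fun k => Submodule.span ℂ (F.w '' {l | l < k}) with hW
  have hmono : ∀ {k l : ℕ}, k ≤ l → W k ≤ W l := fun h =>
    Submodule.span_mono (Set.image_mono fun j (hj : j < _) => lt_of_lt_of_le hj h)
  set Y0 : Submodule ℂ X := (Submodule.span ℂ (Set.range F.w)).topologicalClosure with hY0
  have hWspan : ∀ k, W k ≤ Submodule.span ℂ (Set.range F.w) := fun k =>
    Submodule.span_mono (Set.image_subset_range _ _)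
  have hWY : ∀ k, W k ≤ Y0 := fun k => (hWspan k).trans (Submodule.le_topologicalClosure _)
  have hclosed : IsClosed (Y0 : Set X) := Submodule.isClosed_topologicalClosure _
  have hemem : ∀ l, e l ∈ W (l + 1) := by
    intro l
    have := hem l
    have h2 : {j : ℕ | j ≤ l} = {j : ℕ | j < l + 1} := by
      ext j
      exact Nat.lt_succ_iff.symm
    rwa [h2] at this
  -- the correction
  set A : ℕ → X →L[ℂ] X := fun k => (F.lam k • es k).smulRight (e k) with hA
  have hAv : ∀ k v, A k v = (F.lam k * es k v) • e k := by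
    intro k v
    simp [hA]
  have hAn : ∀ k, ‖A k‖ ≤ ‖F.lam k‖ * 2 := by
    intro k
    rw [hA]
    simp only
    rw [ContinuousLinearMap.norm_smulRight_apply, norm_smul]
    have h3 : ‖F.lam k‖ * ‖es k‖ ≤ ‖F.lam k‖ * 2 :=
      mul_le_mul_of_nonneg_left (hes k) (norm_nonneg _)
    calc ‖F.lam k‖ * ‖es k‖ * ‖e k‖ ≤ ‖F.lam k‖ * ‖es k‖ * 1 :=
          mul_le_mul_of_nonneg_left (he k) (by positivity)
      _ ≤ ‖F.lam k‖ * 2 := by linarith
  have hAs : Summable A := Summable.of_norm_bounded (hlam.mul_right 2) hAn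
  set D : X →L[ℂ] X := ∑' k, A k with hD
  have hDs : HasSum A D := hAs.hasSum
  have hDv : ∀ v, HasSum (fun k => (F.lam k * es k v) • e k) (D v) := by
    intro v
    have h3 := hDs.mapL (ContinuousLinearMap.apply ℂ X v)
    simpa [hAv] using h3
  have hT'D : ∀ v, T' v = T v - D v := by
    intro v
    rw [hT' v, (hDv v).tsum_eq]
  have hDc : IsCompactOperator D := by
    refine isCompactOperator_of_tendsto (F := fun s : Finset ℕ => ∑ k ∈ s, A k) (l := atTop)
      hDs (Eventually.of_forall fun s => ?_)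
    exact compact_sum A (fun k => compact_smulRight _ _) s
  have hT'c : IsCompactOperator T' := by
    have h3 : T' = T - D := by
      ext v
      rw [hT'D v]
      rfl
    rw [h3]
    exact hT.sub hDc
  have hDY : ∀ v, D v ∈ Y0 := by
    intro v
    refine hclosed.mem_of_tendsto (hDv v) (Eventually.of_forall fun s => ?_)
    exact Submodule.sum_mem _ fun k _ => Submodule.smul_mem _ _ (hWY _ (hemem k))
  have hTY : ∀ v ∈ Y0, T v ∈ Y0 := by
    have h3 : Y0 ≤ Y0.comap (T : X →ₗ[ℂ] X) := by
      refine Submodule.topologicalClosure_minimal _ ?_ (hclosed.preimage T.continuous)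
      rw [Submodule.span_le]
      rintro _ ⟨k, rfl⟩
      change T (F.w k) ∈ Y0
      have h4 : T (F.w k) = (T (F.w k) - F.lam k • F.w k) + F.lam k • F.w k := by abel
      rw [h4]
      refine Submodule.add_mem _ (hWY k (F.tri k)) (Submodule.smul_mem _ _ (hWY (k + 1) ?_))
      exact Submodule.subset_span ⟨k, Nat.lt_succ_self k, rfl⟩
    exact fun v hv => h3 hv
  have hT'Y : ∀ v ∈ Y0, T' v ∈ Y0 := by
    intro v hv
    rw [hT'D v]
    exact Submodule.sub_mem _ (hTY v hv) (hDY v)
  -- the corrected operator on the flag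
  have hT'w : ∀ k, T' (F.w k) ∈ W k := by
    intro k
    rw [hT' (F.w k)]
    have h3 : ∑' l, (F.lam l * es l (F.w k)) • e l =
        ∑ l ∈ Finset.range (k + 1), (F.lam l * es l (F.w k)) • e l := by
      apply tsum_eq_sum
      intro l hl
      rw [Finset.mem_range, not_lt] at hl
      rw [hesw l k (by omega)]
      simp
    rw [h3, Finset.sum_range_succ]
    have h4 : T (F.w k) - (∑ l ∈ Finset.range k, (F.lam l * es l (F.w k)) • e l +
        (F.lam k * es k (F.w k)) • e k) =
        (T (F.w k) - F.lam k • F.w k) + F.lam k • (F.w k - es k (F.w k) • e k) -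
          ∑ l ∈ Finset.range k, (F.lam l * es l (F.w k)) • e l := by
      rw [smul_sub, smul_smul]
      abel
    rw [h4]
    refine Submodule.sub_mem _ (Submodule.add_mem _ (F.tri k) (Submodule.smul_mem _ _ (hwd k))) ?_
    refine Submodule.sum_mem _ fun l hl => Submodule.smul_mem _ _ ?_
    exact hmono (Nat.succ_le_of_lt (Finset.mem_range.1 hl)) (hemem l)
  have hT'W : ∀ k, ∀ v ∈ W (k + 1), T' v ∈ W k := by
    intro k
    have h3 : W (k + 1) ≤ (W k).comap (T' : X →ₗ[ℂ] X) := by
      rw [hW]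
      simp only
      rw [Submodule.span_le]
      rintro _ ⟨l, hl, rfl⟩
      exact hmono (Nat.lt_succ_iff.1 hl) (hT'w l)
    exact fun v hv => h3 hv
  have hfin : ∀ k, x ∈ W k → x = 0 := by
    intro k
    induction k with
    | zero =>
      intro hk
      rw [hW] at hk
      simpa using hk
    | succ k ih =>
      intro hk
      apply ih
      have h3 := hT'W k x hk
      rw [hx] at h3
      have h4 := Submodule.smul_mem (W k) ν⁻¹ h3
      rwa [smul_smul, inv_mul_cancel₀ hν, one_smul] at h4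
  -- the eigenvector lies in the closure of the flag
  have hxY : x ∈ Y0 := by
    set X1 : Submodule ℂ X := Module.End.maxGenEigenspace (T : X →ₗ[ℂ] X) ν with hX1
    have hfd : FiniteDimensional ℂ X1 := (h1 X T hT ν hν).1
    have hX1Y : X1 ≤ Y0 := (F.gen ν hν).trans (Submodule.le_topologicalClosure _)
    obtain ⟨P, hP⟩ := Submodule.ClosedComplemented.of_finiteDimensional X1
    have hS : ∀ z, T z - ν • z ∈ X1 → z ∈ X1 := by
      intro z hz
      rw [hX1, Module.End.mem_maxGenEigenspace] at hz ⊢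
      obtain ⟨k, hk⟩ := hz
      refine ⟨k + 1, ?_⟩
      rw [pow_succ, Module.End.mul_apply]
      have h3 : ((T : X →ₗ[ℂ] X) - ν • (1 : Module.End ℂ X)) z = T z - ν • z := by
        simp
      rw [h3]
      exact hk
    set T2 : X →L[ℂ] X := T - T ∘L (X1.subtypeL ∘L P) with hT2
    have hT2v : ∀ v, T2 v = T v - T (P v : X) := fun v => rfl
    have hinj : ∀ y, T2 y = ν • y → y = 0 := by
      intro y hy
      set z : X := y - (P y : X) with hz
      have h3 : T z = ν • y := by
        rw [← hy, hT2v, hz, map_sub]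
      have h4 : z ∈ X1 := by
        apply hS
        rw [h3, hz, smul_sub, sub_sub_cancel]
        exact Submodule.smul_mem _ _ (P y).2
      have h5 : P z = ⟨z, h4⟩ := hP ⟨z, h4⟩
      have h6 : P z = 0 := by
        rw [hz, map_sub, hP, sub_self]
      have h7 : z = 0 := by
        rw [h6] at h5
        exact (congrArg Subtype.val h5).symm
      rw [h7, map_zero] at h3
      exact (smul_eq_zero.1 h3.symm).resolve_left hν
    have hT2Y : ∀ v : Y0, (T2 ∘L Y0.subtypeL) v ∈ Y0 := by
      intro v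
      change T2 (v : X) ∈ Y0
      rw [hT2v]
      exact Submodule.sub_mem _ (hTY _ v.2) (hTY _ (hX1Y (P (v : X)).2))
    set R : Y0 →L[ℂ] Y0 := (T2 ∘L Y0.subtypeL).codRestrict Y0 hT2Y with hR
    have hRv : ∀ v : Y0, (R v : X) = T2 v := fun v => rfl
    have hT2c : IsCompactOperator T2 := hT.sub (hT.comp_clm (X1.subtypeL ∘L P))
    have hRc : IsCompactOperator R := (hT2c.comp_clm Y0.subtypeL).codRestrict hT2Y hclosed
    have hcomplete : CompleteSpace Y0 := hclosed.completeSpace_coe
    rcases hRc.hasEigenvalue_or_mem_resolventSet hν with h3 | h3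
    · obtain ⟨v, hv⟩ := h3.exists_hasEigenvector
      have h4 := hv.apply_eq_smul
      have h5 : T2 (v : X) = ν • (v : X) := by
        have h6 : (R v : X) = ((ν • v : Y0) : X) := congrArg Subtype.val h4
        exact h6
      exact absurd (Subtype.ext (hinj _ h5)) hv.2
    · rw [spectrum.mem_resolventSet_iff, ContinuousLinearMap.isUnit_iff_bijective] at h3
      have h4 : ν • x - T2 x ∈ Y0 := by
        have h5 : ν • x - T2 x = T (P x : X) - D x := by
          have h6 : T x = ν • x + D x := by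
            have := hT'D x
            rw [hx] at this
            rw [this]; abel
          rw [hT2v, h6]; abel
        rw [h5]
        exact Submodule.sub_mem _ (hTY _ (hX1Y (P x).2)) (hDY x)
      obtain ⟨y, hy⟩ := h3.2 ⟨ν • x - T2 x, h4⟩
      have h5 : ν • (y : X) - T2 y = ν • x - T2 x := by
        have h6 := congrArg Subtype.val hy
        simp only [Algebra.algebraMap_eq_smul_one, sub_apply,
          smul_apply, one_apply_eq_self,
          Submodule.coe_sub, Submodule.coe_smul] at h6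
        exact h6
      have h6 : (y : X) - x = 0 := by
        apply hinj
        rw [map_sub, smul_sub]
        have h7 : T2 (y : X) = ν • (y : X) - (ν • x - T2 x) := by
          rw [← h5]; abel
        rw [h7]; abel
      rw [← sub_eq_zero.1 h6]
      exact y.2
  -- compactness
  set δ : ℝ := ‖ν‖ / 2 with hδ
  have hν0 : 0 < ‖ν‖ := norm_pos_iff.2 hν
  have hδ0 : 0 < δ := by positivity
  obtain ⟨k, hk⟩ : ∃ k, ∀ y ∈ Y0, ‖y‖ ≤ 1 → ∃ g ∈ W k, ‖T' y - g‖ < δ := by
    set K : Set X := closure (T' '' ((Y0 : Set X) ∩ Metric.closedBall 0 1)) with hK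
    have hKc : IsCompact K := by
      refine (hT'c.isCompact_closure_image_closedBall 1).of_isClosed_subset isClosed_closure ?_
      exact closure_mono (Set.image_mono Set.inter_subset_right)
    have hKY : K ⊆ Y0 := by
      refine closure_minimal ?_ hclosed
      rintro _ ⟨y, hy, rfl⟩
      exact hT'Y y hy.1
    set U : ℕ → Set X := fun k => ⋃ g ∈ W k, Metric.ball g δ with hU
    have hUo : ∀ k, IsOpen (U k) := fun k =>
      isOpen_biUnion fun g _ => Metric.isOpen_ball
    have hUm : Monotone U := by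
      intro k l hkl
      exact Set.biUnion_subset_biUnion_left fun g hg => hmono hkl hg
    have hKU : K ⊆ ⋃ k, U k := by
      intro z hz
      have h3 : z ∈ closure ((Submodule.span ℂ (Set.range F.w) : Submodule ℂ X) : Set X) := hKY hz
      obtain ⟨g, hg, hzg⟩ := Metric.mem_closure_iff.1 h3 δ hδ0
      obtain ⟨k, hk⟩ := exists_mem_of_mem_span F.w hg
      exact Set.mem_iUnion.2 ⟨k, Set.mem_iUnion₂.2 ⟨g, hk, hzg⟩⟩
    obtain ⟨k, hk⟩ := hKc.elim_directed_cover U hUo hKU hUm.directed_le
    refine ⟨k, fun y hy hy1 => ?_⟩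
    have h3 : T' y ∈ K := subset_closure ⟨y, ⟨hy, by simpa using hy1⟩, rfl⟩
    obtain ⟨g, hg, hzg⟩ := Set.mem_iUnion₂.1 (hk h3)
    exact ⟨g, hg, by rwa [Metric.mem_ball, dist_eq_norm] at hzg⟩
  have hk' : ∀ y ∈ Y0, y ≠ 0 → ∃ g ∈ W k, ‖T' y - g‖ < δ * ‖y‖ := by
    intro y hy hy0
    have hn : 0 < ‖y‖ := norm_pos_iff.2 hy0
    have hnc : (‖y‖ : ℂ) ≠ 0 := by exact_mod_cast hn.ne'
    obtain ⟨g, hg, h3⟩ := hk ((‖y‖ : ℂ)⁻¹ • y) (Submodule.smul_mem _ _ hy) (by
      rw [norm_smul, norm_inv, Complex.norm_real, norm_norm, inv_mul_cancel₀ hn.ne'])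
    refine ⟨(‖y‖ : ℂ) • g, Submodule.smul_mem _ _ hg, ?_⟩
    have h4 : T' y - (‖y‖ : ℂ) • g = (‖y‖ : ℂ) • (T' ((‖y‖ : ℂ)⁻¹ • y) - g) := by
      rw [map_smul, smul_sub, smul_smul, mul_inv_cancel₀ hnc, one_smul]
    rw [h4, norm_smul, Complex.norm_real, norm_norm, mul_comm]
    exact mul_lt_mul_of_pos_right h3 hn
  -- the eigenvector lies in the flag
  apply hfin k
  by_contra hxk
  have hWfd : FiniteDimensional ℂ (W k) :=
    FiniteDimensional.span_of_finite ℂ ((Set.finite_lt_nat k).image _)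
  have hWc : IsClosed (W k : Set X) := Submodule.closed_of_finiteDimensional _
  have hne : (W k : Set X).Nonempty := ⟨0, Submodule.zero_mem _⟩
  have hd : 0 < Metric.infDist x (W k) := (hWc.notMem_iff_infDist_pos hne).1 hxk
  have hlt : Metric.infDist x (W k) < 3 / 2 * Metric.infDist x (W k) := by linarith
  obtain ⟨f, hf, hxf⟩ := (Metric.infDist_lt_iff hne).1 hlt
  have hy0 : x - f ≠ 0 := fun h => hxk (by rw [sub_eq_zero.1 h]; exact hf)
  obtain ⟨g, hg, h3⟩ := hk' (x - f) (Submodule.sub_mem _ hxY (hWY k hf)) hy0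
  have hT'f : T' f ∈ W k := hT'W k f (hmono (Nat.le_succ k) hf)
  have hmem : ν⁻¹ • (T' f + g) ∈ W k := Submodule.smul_mem _ _ (Submodule.add_mem _ hT'f hg)
  have h4 : Metric.infDist x (W k) ≤ dist x (ν⁻¹ • (T' f + g)) := Metric.infDist_le_dist_of_mem hmem
  have h5 : x - ν⁻¹ • (T' f + g) = ν⁻¹ • (T' (x - f) - g) := by
    rw [map_sub, hx]
    have h6 : ν • x - T' f - g = ν • x - (T' f + g) := by abel
    rw [h6, smul_sub ν⁻¹ (ν • x), smul_smul, inv_mul_cancel₀ hν, one_smul]
  rw [dist_eq_norm, h5, norm_smul, norm_inv] at h4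
  rw [dist_eq_norm] at hxf
  have h7 : ‖T' (x - f) - g‖ < ‖ν‖ / 2 * (3 / 2 * Metric.infDist x (W k)) := by
    refine h3.trans_le ?_
    exact mul_le_mul_of_nonneg_left hxf.le hδ0.le
  have h8 : ‖ν‖⁻¹ * ‖T' (x - f) - g‖ < ‖ν‖⁻¹ * (‖ν‖ / 2 * (3 / 2 * Metric.infDist x (W k))) :=
    mul_lt_mul_of_pos_left h7 (inv_pos.2 hν0)
  have h9 : ‖ν‖⁻¹ * (‖ν‖ / 2 * (3 / 2 * Metric.infDist x (W k))) =
      3 / 4 * Metric.infDist x (W k) := by
    field_simp
    ring
  rw [h9] at h8
  linarith

end Pool.Agent.Helper35.LS
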